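import Pool.Agent.H53.CZ.Targets

/-! # MP_f2da09_co: choice of the basis (CHO) -/

namespace Pool.Agent.H64.CZ

open Finset Pool.Agent.H53.CZD

lemma z2cases (x : ZMod 2) : x = 0 ∨ x = 1 := by
  fin_cases x
  · left; rfl
  · right; rfl

/-- uniqueness of the representation as a subset sum -/
lemma uniq_sum {V W : Type*} [DecidableEq V] [AddCommGroup W] [Module (ZMod 2) W]
    (vec : V → W) (Q N N0 : Finset V) (hQ : LinearIndepOn (ZMod 2) vec (Q : Set V))
    (hN : N ⊆ Q) (hN0 : N0 ⊆ Q) (h : ∑ p ∈ N, vec p = ∑ p ∈ N0, vec p) : N = N0 := by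
  classical
  have h1 := linearIndepOn_finset_iff.mp hQ
    (fun p => (if p ∈ N then (1 : ZMod 2) else 0) - (if p ∈ N0 then 1 else 0)) ?_
  · ext p
    by_cases hp : p ∈ Q
    · have h2 := h1 p hp
      by_cases ha : p ∈ N <;> by_cases hb : p ∈ N0 <;> simp [ha, hb] at h2 ⊢
    · exact ⟨fun h => absurd (hN h) hp, fun h => absurd (hN0 h) hp⟩
  · simp only [sub_smul, sum_sub_distrib, ite_smul, one_smul, zero_smul]
    rw [← sum_filter, ← sum_filter, filter_mem_eq_inter, filter_mem_eq_inter,
      inter_eq_right.mpr hN, inter_eq_right.mpr hN0, h, sub_self]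

/-- an element of the span of finitely many vectors over the field with two elements is a subset
sum -/
lemma span_sum {V W : Type*} [DecidableEq V] [AddCommGroup W] [Module (ZMod 2) W]
    (vec : V → W) (Q : Finset V) (x : W)
    (hx : x ∈ Submodule.span (ZMod 2) (vec '' (Q : Set V))) :
    ∃ N ⊆ Q, x = ∑ p ∈ N, vec p := by
  classical
  obtain ⟨c, hc⟩ := Submodule.mem_span_image_finset_iff_exists_fun' (R := ZMod 2) |>.mp hx
  refine ⟨Q.filter (fun p => c p = 1), filter_subset _ _, ?_⟩
  rw [← hc, sum_filter]
  refine sum_congr rfl fun p _ => ?_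
  rcases z2cases (c p) with h | h
  · rw [h, zero_smul, if_neg (by decide)]
  · rw [h, one_smul, if_pos rfl]

theorem cho : CHO := by
  intro V _ _ U T vec q hTU hT hU hR
  classical
  obtain ⟨D, a, b, z, hD, ha, hb, hz, hzab, hind⟩ := hR
  have hpre : ∀ s ∈ (U.image vec).erase 0, ∃ u ∈ U, vec u = s := by
    intro s hs
    obtain ⟨u, hu, h⟩ := mem_image.mp (mem_of_mem_erase hs)
    exact ⟨u, hu, h⟩
  choose α hαU hα using fun i => hpre (a i) (ha i)
  choose β hβU hβ using fun j => hpre (b j) (hb j)
  choose ζ hζU hζ using fun i j => hpre (z i j) (hz i j)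
  -- labels of D
  set UD : Finset V := U.filter (fun u => vec u ∈ D) with hUD
  have hUDimg : vec '' (UD : Set V) = D := by
    ext s
    constructor
    · rintro ⟨u, hu, rfl⟩
      exact (mem_filter.mp hu).2
    · intro hs
      obtain ⟨u, hu, h⟩ := hpre s (hD hs)
      refine ⟨u, ?_, h⟩
      rw [mem_coe, hUD, mem_filter]
      exact ⟨hu, h ▸ hs⟩
  obtain ⟨QDs, hQDs, -, hQDspan, hQDind⟩ :=
    exists_linearIndepOn_extension (K := ZMod 2) (v := vec) (s := ∅) (t := (UD : Set V))
      (linearIndepOn_empty _ _) (Set.empty_subset _)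
  set QD : Finset V := QDs.toFinite.toFinset with hQD
  have hQDc : (QD : Set V) = QDs := by rw [hQD]; exact Set.Finite.coe_toFinset _
  have hspanD : Submodule.span (ZMod 2) D = Submodule.span (ZMod 2) (vec '' (QD : Set V)) := by
    rw [hQDc]
    apply le_antisymm
    · rw [Submodule.span_le, ← hUDimg]
      exact hQDspan
    · rw [← hUDimg]
      exact Submodule.span_mono (Set.image_mono hQDs)
  have hQDU : QD ⊆ U := by
    intro p hp
    have : p ∈ QDs := by rw [← hQDc]; exact hp
    exact (mem_filter.mp (hQDs this)).1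
  have hQDmem : ∀ p ∈ QD, vec p ∈ Submodule.span (ZMod 2) D := by
    intro p hp
    rw [hspanD]
    exact Submodule.subset_span ⟨p, hp, rfl⟩
  -- consequences of the independence
  have sum_single_a : ∀ i : Fin q, (∑ k, (Pi.single i 1 : Fin q → ZMod 2) k • a k) = a i := by
    intro i
    rw [sum_eq_single i]
    · rw [Pi.single_eq_same, one_smul]
    · intro k _ hk
      rw [Pi.single_eq_of_ne hk, zero_smul]
    · intro h
      exact absurd (mem_univ i) h
  have sum_single_b : ∀ j : Fin q, (∑ k, (Pi.single j 1 : Fin q → ZMod 2) k • b k) = b j := by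
    intro j
    rw [sum_eq_single j]
    · rw [Pi.single_eq_same, one_smul]
    · intro k _ hk
      rw [Pi.single_eq_of_ne hk, zero_smul]
    · intro h
      exact absurd (mem_univ j) h
  have single_ne : ∀ i : Fin q, (Pi.single i 1 : Fin q → ZMod 2) ≠ 0 := by
    intro i h
    have := congrFun h i
    rw [Pi.single_eq_same] at this
    exact one_ne_zero this
  have z0 : (∑ k : Fin q, (0 : Fin q → ZMod 2) k • a k) = 0 := by simp
  have z0' : (∑ k : Fin q, (0 : Fin q → ZMod 2) k • b k) = 0 := by simp
  have h2 : ∀ x : V → ZMod 2, x + x = 0 := by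
    intro x
    funext i
    exact CharTwo.add_self_eq_zero _
  have haD : ∀ i, a i ∉ Submodule.span (ZMod 2) D := by
    intro i h
    refine single_ne i (hind (Pi.single i 1) 0 ?_).1
    rw [sum_single_a, z0', add_zero]
    exact h
  have hbD : ∀ j, b j ∉ Submodule.span (ZMod 2) D := by
    intro j h
    refine single_ne j (hind 0 (Pi.single j 1) ?_).2
    rw [sum_single_b, z0, zero_add]
    exact h
  have hab : ∀ i j, a i ≠ b j := by
    intro i j h
    refine single_ne i (hind (Pi.single i 1) (Pi.single j 1) ?_).1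
    rw [sum_single_a, sum_single_b, h, h2]
    exact Submodule.zero_mem _
  have sadd : ∀ (c : Fin q → V → ZMod 2) (x y : Fin q → ZMod 2),
      (∑ k, (x + y) k • c k) = (∑ k, x k • c k) + ∑ k, y k • c k := by
    intro c x y
    rw [← sum_add_distrib]
    exact sum_congr rfl fun k _ => by rw [Pi.add_apply, add_smul]
  have sing_inj : ∀ i i' : Fin q, (Pi.single i 1 + Pi.single i' 1 : Fin q → ZMod 2) = 0 →
      i = i' := by
    intro i i' h
    by_contra hne
    have := congrFun h i
    rw [Pi.add_apply, Pi.single_eq_same, Pi.single_eq_of_ne hne, add_zero] at this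
    exact one_ne_zero this
  have hainj : Function.Injective a := by
    intro i i' h
    apply sing_inj
    refine (hind (Pi.single i 1 + Pi.single i' 1) 0 ?_).1
    rw [sadd, sum_single_a, sum_single_a, z0', add_zero, h, h2]
    exact Submodule.zero_mem _
  have hbinj : Function.Injective b := by
    intro i i' h
    apply sing_inj
    refine (hind 0 (Pi.single i 1 + Pi.single i' 1) ?_).2
    rw [sadd, sum_single_b, sum_single_b, z0, zero_add, h, h2]
    exact Submodule.zero_mem _
  have hαinj : Function.Injective α := by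
    intro i i' h
    apply hainj
    rw [← hα, ← hα, h]
  have hβinj : Function.Injective β := by
    intro i i' h
    apply hbinj
    rw [← hβ, ← hβ, h]
  have hαβ : ∀ i j, α i ≠ β j := by
    intro i j h
    apply hab i j
    rw [← hα, ← hβ, h]
  have hαQD : ∀ i, α i ∉ QD := by
    intro i h
    apply haD i
    rw [← hα]
    exact hQDmem _ h
  have hβQD : ∀ i, β i ∉ QD := by
    intro i h
    apply hbD i
    rw [← hβ]
    exact hQDmem _ h
  have hzinj : ∀ i j i' j', z i j = z i' j' → i = i' ∧ j = j' := by
    intro i j i' j' h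
    have h3 := hind (Pi.single i 1 + Pi.single i' 1) (Pi.single j 1 + Pi.single j' 1) ?_
    · exact ⟨sing_inj _ _ h3.1, sing_inj _ _ h3.2⟩
    · rw [sadd, sadd, sum_single_a, sum_single_a, sum_single_b, sum_single_b]
      have h4 := Submodule.add_mem _ (hzab i j) (hzab i' j')
      have h5 : a i + a i' + (b j + b j') = z i j + a i + b j + (z i' j' + a i' + b j') := by
        rw [h]
        have : z i' j' + a i + b j + (z i' j' + a i' + b j') =
          (z i' j' + z i' j') + (a i + a i' + (b j + b j')) := by abel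
        rw [this, h2, zero_add]
      rw [h5]
      exact h4
  -- the independent set QD ∪ α ∪ β
  set Q1 : Finset V := QD ∪ (univ.image α ∪ univ.image β) with hQ1
  have hd1 : Disjoint QD (univ.image α ∪ univ.image β) := by
    rw [disjoint_left]
    intro p hp hp'
    rcases mem_union.mp hp' with h | h
    · obtain ⟨i, _, rfl⟩ := mem_image.mp h
      exact hαQD i hp
    · obtain ⟨i, _, rfl⟩ := mem_image.mp h
      exact hβQD i hp
  have hd2 : Disjoint (univ.image α) (univ.image β) := by
    rw [disjoint_left]
    intro p hp hp'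
    obtain ⟨i, _, rfl⟩ := mem_image.mp hp
    obtain ⟨j, _, h⟩ := mem_image.mp hp'
    exact hαβ i j h.symm
  have hQ1ind : LinearIndepOn (ZMod 2) vec (Q1 : Set V) := by
    rw [linearIndepOn_finset_iff]
    intro g hg
    rw [hQ1, sum_union hd1, sum_union hd2, sum_image (fun x _ y _ h => hαinj h),
      sum_image (fun x _ y _ h => hβinj h)] at hg
    simp only [hα, hβ] at hg
    have hgD : ∑ p ∈ QD, g p • vec p ∈ Submodule.span (ZMod 2) D :=
      Submodule.sum_mem _ fun p hp => Submodule.smul_mem _ _ (hQDmem p hp)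
    have h3 : (∑ i, g (α i) • a i) + (∑ j, g (β j) • b j) ∈ Submodule.span (ZMod 2) D := by
      have : (∑ i, g (α i) • a i) + (∑ j, g (β j) • b j) = -(∑ p ∈ QD, g p • vec p) := by
        rw [eq_neg_iff_add_eq_zero, add_comm]
        exact hg
      rw [this]
      exact Submodule.neg_mem _ hgD
    obtain ⟨h4, h5⟩ := hind (fun i => g (α i)) (fun j => g (β j)) h3
    have h4' : ∀ i, g (α i) = 0 := fun i => congrFun h4 i
    have h5' : ∀ j, g (β j) = 0 := fun j => congrFun h5 j
    simp only [h4', h5', zero_smul, sum_const_zero, add_zero] at hg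
    have h6 := linearIndepOn_finset_iff.mp (hQDc ▸ hQDind) g hg
    intro p hp
    rcases mem_union.mp hp with h | h
    · exact h6 p h
    · rcases mem_union.mp h with h | h
      · obtain ⟨i, _, rfl⟩ := mem_image.mp h
        exact h4' i
      · obtain ⟨i, _, rfl⟩ := mem_image.mp h
        exact h5' i
  have hQ1U : (Q1 : Set V) ⊆ (U : Set V) := by
    intro p hp
    rcases mem_union.mp (mem_coe.mp hp) with h | h
    · exact hQDU h
    · rcases mem_union.mp h with h | h
      · obtain ⟨i, _, rfl⟩ := mem_image.mp h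
        exact hαU i
      · obtain ⟨i, _, rfl⟩ := mem_image.mp h
        exact hβU i
  obtain ⟨Qs, hQsU, hQ1Qs, hQsspan, hQsind⟩ :=
    exists_linearIndepOn_extension (K := ZMod 2) (v := vec) hQ1ind hQ1U
  set Q : Finset V := Qs.toFinite.toFinset with hQ
  have hQc : (Q : Set V) = Qs := by rw [hQ]; exact Set.Finite.coe_toFinset _
  have hQU : Q ⊆ U := by
    intro p hp
    exact hQsU (by rw [← hQc]; exact hp)
  have hQ1Q : Q1 ⊆ Q := by
    intro p hp
    rw [← mem_coe, hQc]
    exact hQ1Qs hp
  have hQind : LinearIndepOn (ZMod 2) vec (Q : Set V) := by rw [hQc]; exact hQsind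
  -- cardinality
  have hTind : LinearIndepOn (ZMod 2) vec (T : Set V) := by
    rw [linearIndepOn_finset_iff]
    intro g hg t ht
    have h3 := congrFun hg t
    rw [Finset.sum_apply, sum_eq_single t] at h3
    · rw [Pi.smul_apply, hT t ht, Pi.single_eq_same, smul_eq_mul, mul_one] at h3
      exact h3
    · intro p hp hpt
      rw [Pi.smul_apply, hT p hp, Pi.single_eq_of_ne hpt.symm, smul_zero]
    · intro h
      exact absurd ht h
  have hspanT : Submodule.span (ZMod 2) (vec '' (U : Set V)) =
      Submodule.span (ZMod 2) (vec '' (T : Set V)) := by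
    apply le_antisymm
    · rw [Submodule.span_le]
      rintro _ ⟨u, hu, rfl⟩
      have : vec u = ∑ t ∈ T, vec u t • vec t := by
        funext i
        rw [Finset.sum_apply]
        by_cases hi : i ∈ T
        · rw [sum_eq_single i]
          · rw [Pi.smul_apply, hT i hi, Pi.single_eq_same, smul_eq_mul, mul_one]
          · intro p hp hpi
            rw [Pi.smul_apply, hT p hp, Pi.single_eq_of_ne hpi.symm, smul_zero]
          · intro h
            exact absurd hi h
        · rw [hU u hu i hi, sum_eq_zero]
          intro p hp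
          have : i ≠ p := fun e => hi (e ▸ hp)
          rw [Pi.smul_apply, hT p hp, Pi.single_eq_of_ne this, smul_zero]
      rw [SetLike.mem_coe, this]
      exact Submodule.sum_mem _ fun t ht => Submodule.smul_mem _ _
        (Submodule.subset_span ⟨t, ht, rfl⟩)
    · exact Submodule.span_mono (Set.image_mono (by exact_mod_cast hTU))
  have hspanQ : Submodule.span (ZMod 2) (vec '' (Q : Set V)) =
      Submodule.span (ZMod 2) (vec '' (U : Set V)) := by
    apply le_antisymm
    · exact Submodule.span_mono (Set.image_mono (by exact_mod_cast hQU))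
    · rw [Submodule.span_le, hQc]
      exact hQsspan
  have hcard : ∀ A : Finset V, LinearIndepOn (ZMod 2) vec (A : Set V) →
      Module.finrank (ZMod 2) (Submodule.span (ZMod 2) (vec '' (A : Set V))) = #A := by
    intro A hA
    have h3 : LinearIndependent (ZMod 2) (fun p : A => vec p) := hA
    have h4 := finrank_span_eq_card h3
    rw [Fintype.card_coe] at h4
    rw [← h4]
    have h5 : vec '' (A : Set V) = Set.range (fun p : A => vec p) := by
      ext x
      simp only [Set.mem_image, Set.mem_range, mem_coe]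
      constructor
      · rintro ⟨p, hp, h⟩
        exact ⟨⟨p, hp⟩, h⟩
      · rintro ⟨⟨p, hp⟩, h⟩
        exact ⟨p, hp, h⟩
    rw [h5]
  have hQT : #Q = #T := by
    rw [← hcard Q hQind, ← hcard T hTind, hspanQ, hspanT]
  -- representation of z
  have hαQ : ∀ i, α i ∈ Q := fun i => hQ1Q (mem_union_right _ (mem_union_left _
    (mem_image_of_mem _ (mem_univ i))))
  have hβQ : ∀ i, β i ∈ Q := fun i => hQ1Q (mem_union_right _ (mem_union_right _
    (mem_image_of_mem _ (mem_univ i))))
  have hrep : ∀ i j, ∃ N0 ⊆ Q, vec (ζ i j) = ∑ p ∈ N0, vec p ∧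
      (∀ k, α k ∈ N0 ↔ k = i) ∧ (∀ k, β k ∈ N0 ↔ k = j) := by
    intro i j
    have h3 := hzab i j
    rw [hspanD] at h3
    obtain ⟨ND, hND, hNDs⟩ := span_sum vec QD _ h3
    refine ⟨insert (α i) (insert (β j) ND), ?_, ?_, ?_, ?_⟩
    · intro p hp
      rcases mem_insert.mp hp with rfl | hp
      · exact hαQ i
      rcases mem_insert.mp hp with rfl | hp
      · exact hβQ j
      exact hQ1Q (mem_union_left _ (hND hp))
    · rw [sum_insert, sum_insert, ← hNDs, hα, hβ, hζ]
      · have : a i + (b j + (z i j + a i + b j)) = z i j + (a i + a i) + (b j + b j) := by abel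
        rw [this, h2, h2, add_zero, add_zero]
      · exact fun h => hβQD j (hND h)
      · intro h
        rcases mem_insert.mp h with h | h
        · exact hαβ i j h
        · exact hαQD i (hND h)
    · intro k
      rw [mem_insert, mem_insert]
      constructor
      · rintro (h | h | h)
        · exact hαinj h
        · exact absurd h (hαβ k j)
        · exact absurd (hND h) (hαQD k)
      · rintro rfl
        exact Or.inl rfl
    · intro k
      rw [mem_insert, mem_insert]
      constructor
      · rintro (h | h | h)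
        · exact absurd h.symm (hαβ i k)
        · exact hβinj h
        · exact absurd (hND h) (hβQD k)
      · rintro rfl
        exact Or.inr (Or.inl rfl)
  refine ⟨Q, α, β, ζ, hQU, hQT, hQind, hαQ, hβQ, ?_, hαinj, hβinj, hαβ, ?_, ?_⟩
  · intro i j
    refine ⟨hζU i j, fun hmem => ?_⟩
    obtain ⟨N0, hN0, hs, h3, h4⟩ := hrep i j
    have h5 := uniq_sum vec Q {ζ i j} N0 hQind (singleton_subset_iff.mpr hmem) hN0
      (by rw [sum_singleton]; exact hs)
    have h6 : α i ∈ ({ζ i j} : Finset V) := by rw [h5]; exact (h3 i).mpr rfl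
    have h7 : β j ∈ ({ζ i j} : Finset V) := by rw [h5]; exact (h4 j).mpr rfl
    exact hαβ i j ((mem_singleton.mp h6).trans (mem_singleton.mp h7).symm)
  · intro i j i' j' h
    apply hzinj
    rw [← hζ, ← hζ, h]
  · intro i j N hN hs k
    obtain ⟨N0, hN0, hs0, h3, h4⟩ := hrep i j
    have h5 := uniq_sum vec Q N N0 hQind hN hN0 (hs.trans hs0)
    rw [h5]
    exact ⟨h3 k, h4 k⟩

end Pool.Agent.H64.CZ
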