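import Pool.Agent.H53.CZ.Targets

/-! # MP_f2da09_co: splitting of the classes (SPL) -/

namespace Pool.Agent.H64.CZ

open Finset Pool.Agent.H53.CZD

section
variable {ι : Type} [Fintype ι] [DecidableEq ι]

omit [Fintype ι] in
lemma restr_insert_eq_iff (A : Finset ι) (t : ι) (ht : t ∉ A) (c v : ι → ZMod 2)
    (hv : ∀ i, i ∉ A → v i = 0) :
    (restr (insert t A) c = v ↔ restr A c = v ∧ c t = 0) := by
  constructor
  · intro h
    have h1 : ∀ i, (if i ∈ insert t A then c i else 0) = v i := fun i => congrFun h i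
    refine ⟨?_, ?_⟩
    · funext i
      change (if i ∈ A then c i else 0) = v i
      by_cases hi : i ∈ A
      · have := h1 i
        rw [if_pos (mem_insert_of_mem hi)] at this
        rw [if_pos hi, this]
      · rw [if_neg hi, hv i hi]
    · have := h1 t
      rw [if_pos (mem_insert_self t A), hv t ht] at this
      exact this
  · rintro ⟨h, h0⟩
    have h1 : ∀ i, (if i ∈ A then c i else 0) = v i := fun i => congrFun h i
    funext i
    change (if i ∈ insert t A then c i else 0) = v i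
    by_cases hi : i ∈ A
    · rw [if_pos (mem_insert_of_mem hi)]
      have := h1 i
      rwa [if_pos hi] at this
    · by_cases hit : i = t
      · subst hit
        rw [if_pos (mem_insert_self _ _), h0, hv _ ht]
      · rw [if_neg, hv i hi]
        simp [hit, hi]

omit [Fintype ι] in
lemma restr_insert_eq_iff' (A : Finset ι) (t : ι) (ht : t ∉ A) (c v : ι → ZMod 2)
    (hv : ∀ i, i ∉ A → v i = 0) :
    (restr (insert t A) c = v + Pi.single t 1 ↔ restr A c = v ∧ c t = 1) := by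
  constructor
  · intro h
    have h1 : ∀ i, (if i ∈ insert t A then c i else 0) = v i + (Pi.single t 1 : ι → ZMod 2) i :=
      fun i => congrFun h i
    refine ⟨?_, ?_⟩
    · funext i
      change (if i ∈ A then c i else 0) = v i
      by_cases hi : i ∈ A
      · have := h1 i
        have hit : i ≠ t := fun e => ht (e ▸ hi)
        rw [if_pos (mem_insert_of_mem hi), Pi.single_eq_of_ne hit, add_zero] at this
        rw [if_pos hi, this]
      · rw [if_neg hi, hv i hi]
    · have := h1 t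
      rw [if_pos (mem_insert_self t A), hv t ht, Pi.single_eq_same, zero_add] at this
      exact this
  · rintro ⟨h, h0⟩
    have h1 : ∀ i, (if i ∈ A then c i else 0) = v i := fun i => congrFun h i
    funext i
    change (if i ∈ insert t A then c i else 0) = v i + (Pi.single t 1 : ι → ZMod 2) i
    by_cases hi : i ∈ A
    · have hit : i ≠ t := fun e => ht (e ▸ hi)
      rw [if_pos (mem_insert_of_mem hi), Pi.single_eq_of_ne hit, add_zero]
      have := h1 i
      rwa [if_pos hi] at this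
    · by_cases hit : i = t
      · subst hit
        rw [if_pos (mem_insert_self _ _), h0, hv _ ht, Pi.single_eq_same, zero_add]
      · rw [if_neg, hv i hi, Pi.single_eq_of_ne hit, add_zero]
        simp [hit, hi]

/-- elements of the class with coordinate `t` equal to `e` -/
def cls (C : Finset (ι → ZMod 2)) (A : Finset ι) (v : ι → ZMod 2) (t : ι) (e : ZMod 2) : ℕ :=
  #{c ∈ C | restr A c = v ∧ c t = e}

lemma wt_zero (C : Finset (ι → ZMod 2)) (A : Finset ι) (t : ι) (ht : t ∉ A) (v : ι → ZMod 2)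
    (hv : ∀ i, i ∉ A → v i = 0) : #{c ∈ C | restr (insert t A) c = v} = cls C A v t 0 := by
  unfold cls
  congr 1
  ext c
  simp only [mem_filter, restr_insert_eq_iff A t ht c v hv]

lemma wt_one (C : Finset (ι → ZMod 2)) (A : Finset ι) (t : ι) (ht : t ∉ A) (v : ι → ZMod 2)
    (hv : ∀ i, i ∉ A → v i = 0) :
    #{c ∈ C | restr (insert t A) c = v + Pi.single t 1} = cls C A v t 1 := by
  unfold cls
  congr 1
  ext c
  simp only [mem_filter, restr_insert_eq_iff' A t ht c v hv]

lemma tr_zero (C : Finset (ι → ZMod 2)) (A : Finset ι) (v : ι → ZMod 2) (hv : v ∈ tr C A) :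
    ∀ i, i ∉ A → v i = 0 := by
  intro i hi
  obtain ⟨c, _, rfl⟩ := mem_image.mp hv
  change (if i ∈ A then c i else 0) = 0
  rw [if_neg hi]

lemma edge_ge (C : Finset (ι → ZMod 2)) (A : Finset ι) (t : ι) (ht : t ∉ A) :
    ∑ v ∈ tr C A, 2 * min (cls C A v t 0) (cls C A v t 1) ≤ edgeWt C (insert t A) t := by
  classical
  set e : ι → ZMod 2 := Pi.single t 1 with he
  have hee : e + e = 0 := by
    funext i
    exact CharTwo.add_self_eq_zero _
  set V := (tr C A).filter (fun v => 0 < cls C A v t 0 ∧ 0 < cls C A v t 1) with hV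
  have h1 : ∑ v ∈ tr C A, 2 * min (cls C A v t 0) (cls C A v t 1)
      = ∑ v ∈ V, 2 * min (cls C A v t 0) (cls C A v t 1) := by
    rw [hV, sum_filter_of_ne]
    intro v hv hne
    by_contra hcon
    apply hne
    have : min (cls C A v t 0) (cls C A v t 1) = 0 := by
      by_contra h0
      exact hcon ⟨lt_of_lt_of_le (Nat.pos_of_ne_zero h0) (min_le_left _ _),
        lt_of_lt_of_le (Nat.pos_of_ne_zero h0) (min_le_right _ _)⟩
    rw [this, mul_zero]
  have htr0 : ∀ v ∈ V, v ∈ tr C (insert t A) := by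
    intro v hv
    obtain ⟨hv1, hv2, hv3⟩ := mem_filter.mp hv
    obtain ⟨c, hc⟩ := card_pos.mp hv2
    obtain ⟨hc1, hc2⟩ := mem_filter.mp hc
    exact mem_image.mpr ⟨c, hc1, (restr_insert_eq_iff A t ht c v (tr_zero C A v hv1)).mpr hc2⟩
  have htr1 : ∀ v ∈ V, v + e ∈ tr C (insert t A) := by
    intro v hv
    obtain ⟨hv1, hv2, hv3⟩ := mem_filter.mp hv
    obtain ⟨c, hc⟩ := card_pos.mp hv3
    obtain ⟨hc1, hc2⟩ := mem_filter.mp hc
    exact mem_image.mpr ⟨c, hc1, (restr_insert_eq_iff' A t ht c v (tr_zero C A v hv1)).mpr hc2⟩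
  have hdis : Disjoint V (V.image (fun v => v + e)) := by
    rw [disjoint_left]
    intro v hv hv'
    obtain ⟨w, hw, hwv⟩ := mem_image.mp hv'
    have h2 := tr_zero C A v (mem_filter.mp hv).1 t ht
    have h3 := tr_zero C A w (mem_filter.mp hw).1 t ht
    rw [← hwv] at h2
    simp only [Pi.add_apply, h3, he, Pi.single_eq_same, zero_add] at h2
    exact absurd h2 (by decide)
  have hinj : Set.InjOn (fun v : ι → ZMod 2 => v + e) (V : Set (ι → ZMod 2)) := by
    intro a _ b _ hab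
    exact add_right_cancel hab
  have hsub : V ∪ V.image (fun v => v + e) ⊆
      (tr C (insert t A)).filter (fun u => u + Pi.single t 1 ∈ tr C (insert t A)) := by
    intro u hu
    rcases mem_union.mp hu with hu | hu
    · exact mem_filter.mpr ⟨htr0 u hu, htr1 u hu⟩
    · obtain ⟨w, hw, rfl⟩ := mem_image.mp hu
      refine mem_filter.mpr ⟨htr1 w hw, ?_⟩
      rw [add_assoc]
      change w + (e + e) ∈ _
      rw [hee, add_zero]
      exact htr0 w hw
  rw [h1]
  unfold edgeWt
  refine le_trans (le_of_eq ?_) (sum_le_sum_of_subset hsub)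
  rw [sum_union hdis, sum_image hinj, ← sum_add_distrib]
  refine sum_congr rfl fun v hv => ?_
  have hv0 := tr_zero C A v (mem_filter.mp hv).1
  have ha : wt C (insert t A) v = cls C A v t 0 := wt_zero C A t ht v hv0
  have hb : wt C (insert t A) (v + e) = cls C A v t 1 := wt_one C A t ht v hv0
  have hc : v + e + e = v := by rw [add_assoc, hee, add_zero]
  change _ = min (wt C (insert t A) v) (wt C (insert t A) (v + e)) +
    min (wt C (insert t A) (v + e)) (wt C (insert t A) (v + e + e))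
  rw [hc, ha, hb, min_comm (cls C A v t 1), two_mul]

lemma zmod2_cases (x : ZMod 2) : x = 0 ∨ x = 1 := by
  fin_cases x
  · left; rfl
  · right; rfl

lemma pairs_eq (K : Finset (ι → ZMod 2)) (t : ι) :
    #{p ∈ K ×ˢ K | p.1 t ≠ p.2 t} = 2 * (#{c ∈ K | c t = 0} * #{c ∈ K | c t = 1}) := by
  classical
  have : {p ∈ K ×ˢ K | p.1 t ≠ p.2 t} =
      ({c ∈ K | c t = 0} ×ˢ {c ∈ K | c t = 1}) ∪ ({c ∈ K | c t = 1} ×ˢ {c ∈ K | c t = 0}) := by
    ext ⟨a, b⟩
    simp only [mem_filter, mem_product, mem_union]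
    constructor
    · rintro ⟨⟨ha, hb⟩, hne⟩
      rcases zmod2_cases (a t) with h | h <;> rcases zmod2_cases (b t) with h' | h'
      · exact absurd (h.trans h'.symm) hne
      · left; exact ⟨⟨ha, h⟩, ⟨hb, h'⟩⟩
      · right; exact ⟨⟨ha, h⟩, ⟨hb, h'⟩⟩
      · exact absurd (h.trans h'.symm) hne
    · rintro (⟨⟨ha, h⟩, ⟨hb, h'⟩⟩ | ⟨⟨ha, h⟩, ⟨hb, h'⟩⟩)
      · exact ⟨⟨ha, hb⟩, by rw [h, h']; decide⟩
      · exact ⟨⟨ha, hb⟩, by rw [h, h']; decide⟩
  rw [this, card_union_of_disjoint, card_product, card_product]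
  · ring
  · rw [disjoint_left]
    rintro ⟨a, b⟩ h1 h2
    simp only [mem_filter, mem_product] at h1 h2
    have := h1.1.2.symm.trans h2.1.2
    exact absurd this (by decide)

lemma class_bound (C : Finset (ι → ZMod 2)) (T A : Finset ι) (δ : ℕ) (hA : A ⊆ T)
    (hd : ∀ c ∈ C, ∀ d ∈ C, c ≠ d → δ ≤ #{t ∈ T | c t ≠ d t}) (v : ι → ZMod 2)
    (hv : v ∈ tr C A) :
    δ * #{c ∈ C | restr A c = v} ≤ δ +
      ∑ t ∈ T \ A, 2 * min (cls C A v t 0) (cls C A v t 1) := by
  classical
  set K := {c ∈ C | restr A c = v} with hK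
  have hKpos : 0 < #K := by
    obtain ⟨c, hc, hcv⟩ := mem_image.mp hv
    exact card_pos.mpr ⟨c, mem_filter.mpr ⟨hc, hcv⟩⟩
  have hcls : ∀ t (e : ZMod 2), cls C A v t e = #{c ∈ K | c t = e} := by
    intro t e
    unfold cls
    rw [hK, filter_filter]
  -- agreement on A
  have hagree : ∀ c ∈ K, ∀ d ∈ K, ∀ t ∈ A, c t = d t := by
    intro c hc d hd' t ht
    have h1 := congrFun ((mem_filter.mp hc).2.trans (mem_filter.mp hd').2.symm) t
    change (if t ∈ A then c t else 0) = (if t ∈ A then d t else 0) at h1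
    rwa [if_pos ht, if_pos ht] at h1
  have hset : ∀ c ∈ K, ∀ d ∈ K, {t ∈ T | c t ≠ d t} = {t ∈ T \ A | c t ≠ d t} := by
    intro c hc d hd'
    ext t
    simp only [mem_filter, mem_sdiff]
    constructor
    · rintro ⟨h1, h2⟩
      exact ⟨⟨h1, fun h => h2 (hagree c hc d hd' t h)⟩, h2⟩
    · rintro ⟨⟨h1, _⟩, h2⟩
      exact ⟨h1, h2⟩
  -- double counting
  have hcount : δ * #{p ∈ K ×ˢ K | p.1 ≠ p.2} ≤ ∑ t ∈ T \ A, #{p ∈ K ×ˢ K | p.1 t ≠ p.2 t} := by
    have e1 : ∑ t ∈ T \ A, #{p ∈ K ×ˢ K | p.1 t ≠ p.2 t}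
        = ∑ p ∈ K ×ˢ K, #{t ∈ T \ A | p.1 t ≠ p.2 t} := by
      simp_rw [card_filter]
      rw [sum_comm]
    rw [e1]
    calc δ * #{p ∈ K ×ˢ K | p.1 ≠ p.2} = ∑ p ∈ K ×ˢ K with p.1 ≠ p.2, δ := by
          rw [sum_const, smul_eq_mul, mul_comm]
      _ ≤ ∑ p ∈ K ×ˢ K with p.1 ≠ p.2, #{t ∈ T \ A | p.1 t ≠ p.2 t} := by
          refine sum_le_sum fun p hp => ?_
          obtain ⟨hp1, hp2⟩ := mem_filter.mp hp
          obtain ⟨ha, hb⟩ := mem_product.mp hp1
          rw [← hset p.1 ha p.2 hb]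
          exact hd p.1 (mem_filter.mp ha).1 p.2 (mem_filter.mp hb).1 hp2
      _ ≤ _ := sum_le_sum_of_subset (filter_subset _ _)
  have hoff : #{p ∈ K ×ˢ K | p.1 ≠ p.2} + #K = #K * #K := by
    have h1 : #{p ∈ K ×ˢ K | p.1 = p.2} = #K := by
      have : {p ∈ K ×ˢ K | p.1 = p.2} = K.image (fun c => (c, c)) := by
        ext ⟨a, b⟩
        simp only [mem_filter, mem_product, mem_image, Prod.mk.injEq]
        constructor
        · rintro ⟨⟨ha, _⟩, h⟩
          exact ⟨a, ha, rfl, h⟩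
        · rintro ⟨c, hc, h1, h2⟩
          subst h1; subst h2
          exact ⟨⟨hc, hc⟩, rfl⟩
      rw [this, card_image_of_injective]
      intro a b hab
      exact (Prod.mk.inj hab).1
    have h2 := card_filter_add_card_filter_not (s := K ×ˢ K) (fun p => p.1 = p.2)
    rw [h1, card_product] at h2
    have h3 : #{p ∈ K ×ˢ K | p.1 ≠ p.2} = #{p ∈ K ×ˢ K | ¬ p.1 = p.2} := rfl
    rw [h3]
    omega
  have hmin : ∀ t, #{p ∈ K ×ˢ K | p.1 t ≠ p.2 t} ≤
      #K * (2 * min (cls C A v t 0) (cls C A v t 1)) := by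
    intro t
    rw [pairs_eq, hcls, hcls]
    have h0 : #{c ∈ K | c t = 0} ≤ #K := card_filter_le _ _
    have h1 : #{c ∈ K | c t = 1} ≤ #K := card_filter_le _ _
    rcases le_total #{c ∈ K | c t = 0} #{c ∈ K | c t = 1} with h | h
    · rw [min_eq_left h]
      nlinarith [Nat.mul_le_mul_left (#{c ∈ K | c t = 0}) h1]
    · rw [min_eq_right h]
      nlinarith [Nat.mul_le_mul_left (#{c ∈ K | c t = 1}) h0]
  have hfin : #K * (δ * #K) ≤ #K * (δ +
      ∑ t ∈ T \ A, 2 * min (cls C A v t 0) (cls C A v t 1)) := by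
    have h1 : ∑ t ∈ T \ A, #{p ∈ K ×ˢ K | p.1 t ≠ p.2 t} ≤
        #K * ∑ t ∈ T \ A, 2 * min (cls C A v t 0) (cls C A v t 1) := by
      rw [mul_sum]
      exact sum_le_sum fun t _ => hmin t
    have h2 : δ * #{p ∈ K ×ˢ K | p.1 ≠ p.2} + δ * #K = δ * (#K * #K) := by
      rw [← mul_add, hoff]
    calc #K * (δ * #K) = δ * (#K * #K) := by ring
      _ = δ * #{p ∈ K ×ˢ K | p.1 ≠ p.2} + δ * #K := h2.symm
      _ ≤ #K * ∑ t ∈ T \ A, 2 * min (cls C A v t 0) (cls C A v t 1) + δ * #K := by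
          exact Nat.add_le_add_right (hcount.trans h1) _
      _ = _ := by ring
  exact Nat.le_of_mul_le_mul_left hfin hKpos

end

theorem spl : SPL := by
  intro ι _ _ C T A δ hA hd
  classical
  have h1 : #C = ∑ v ∈ tr C A, #{c ∈ C | restr A c = v} := by
    exact card_eq_sum_card_fiberwise (fun c hc => mem_image_of_mem _ hc)
  calc δ * #C = ∑ v ∈ tr C A, δ * #{c ∈ C | restr A c = v} := by
        rw [h1, mul_sum]
    _ ≤ ∑ v ∈ tr C A, (δ + ∑ t ∈ T \ A, 2 * min (cls C A v t 0) (cls C A v t 1)) :=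
        sum_le_sum fun v hv => class_bound C T A δ hA hd v hv
    _ = δ * #(tr C A) + ∑ t ∈ T \ A, ∑ v ∈ tr C A,
          2 * min (cls C A v t 0) (cls C A v t 1) := by
        rw [sum_add_distrib, sum_const, smul_eq_mul, mul_comm, sum_comm]
    _ ≤ δ * #(tr C A) + ∑ t ∈ T \ A, edgeWt C (insert t A) t := by
        refine Nat.add_le_add_left (sum_le_sum fun t ht => ?_) _
        exact edge_ge C A t (mem_sdiff.mp ht).2

end Pool.Agent.H64.CZ
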